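import Pool.Agent.Lib_helper2.LB.F.U4

/-!
# MP_ef641d_nt: Burnside's theorem on zeros of characters, for `GL_n`

Let `n = m + 1 ≥ 2`, let `K` be a number field, and let `P_p` (`p` prime) be polynomials over the ring of
integers of `K` such that, for every embedding `τ : K → ℂ`, the `τ (P_p)` are the Satake polynomials of
a cuspidal Hecke eigenform on `GL_n(ℝ)` of level `N`. Then `∑_{a(p) = 0} p^{-s} = ∞` for all
`s < 1 / (n + 1)`, where `-a(p)` is the coefficient of `P_p` at `X^(n-1)`; in particular `a(p) = 0`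
for infinitely many primes `p`. No Galois representation is used. If Galois representations exist for
these forms, as predicted, this is Burnside's theorem that an irreducible character of degree `≥ 2` of a
finite group has a zero.
-/

set_option autoImplicit false

namespace Pool.Agent.Results.MP_ef641d_nt.BurnsideGLn

open Pool.Agent.LB

theorem result (m : ℕ) (hm : 1 ≤ m) (K : Type) [Field K] [NumberField K] (N : ℕ) (hN : N ≠ 0)
    (P : ℕ → Polynomial (NumberField.RingOfIntegers K))
    (h : ∀ τ : K →+* ℂ, ∃ (χ : DirichletCharacter ℂ N)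
      (φ : Matrix (Fin (m + 1)) (Fin (m + 1)) ℝ → ℂ),
      CuspEigenform m N χ φ fun p =>
        (P p).map (τ.comp (algebraMap (NumberField.RingOfIntegers K) K))) :
    {p : ℕ | p.Prime ∧ ¬ p ∣ N ∧ (P p).coeff m = 0}.Infinite ∧
    ∀ s : ℝ, s < 1 / ((m : ℝ) + 2) →
      ¬ Summable fun p : {p : ℕ // p.Prime ∧ ¬ p ∣ N ∧ (P p).coeff m = 0} =>
        ((p.1 : ℕ) : ℝ) ^ (-s) := by
  have h1 := main3 m hm K N hN P h
  refine ⟨fun hfin => ?_, h1⟩
  have : Finite {p : ℕ // p.Prime ∧ ¬ p ∣ N ∧ (P p).coeff m = 0} := hfin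
  exact h1 0 (by positivity) (Summable.of_finite)

end Pool.Agent.Results.MP_ef641d_nt.BurnsideGLn
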